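import Mathlib

set_option autoImplicit false

/-!
# Selective ultrafilters under CH and Fubini sums

Helper file for `MP_21276c_lc`.
-/

namespace Pool.Agent.Q108.QP

open Set Filter Cardinal

/-- The ultrafilter is nonprincipal. -/
def NP (U : Ultrafilter ℕ) : Prop := ∀ n : ℕ, ({n} : Set ℕ) ∉ U

/-- `U` is a p-point. -/
def PPoint (U : Ultrafilter ℕ) : Prop :=
  (∀ n : ℕ, ({n} : Set ℕ) ∉ U) ∧
    ∀ A : ℕ → Set ℕ, (∀ n, A n ∈ U) → ∃ X ∈ U, ∀ n, (X \ A n).Finite

/-- `U` is a q-point. -/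
def QPoint (U : Ultrafilter ℕ) : Prop :=
  (∀ n : ℕ, ({n} : Set ℕ) ∉ U) ∧
    ∀ f : ℕ → ℕ, (∀ m : ℕ, {n : ℕ | f n = m}.Finite) → ∃ X ∈ U, Set.InjOn f X

/-- `U` is selective. -/
def Selective (U : Ultrafilter ℕ) : Prop :=
  (∀ n : ℕ, ({n} : Set ℕ) ∉ U) ∧
    ∀ f : ℕ → ℕ, (∃ X ∈ U, ∃ c : ℕ, ∀ x ∈ X, f x = c) ∨ ∃ X ∈ U, Set.InjOn f X

lemma NP.not_finite {U : Ultrafilter ℕ} (h : NP U) {X : Set ℕ} (hX : X ∈ U) : ¬ X.Finite := by
  intro hf
  obtain ⟨n, hn, hn'⟩ := (Ultrafilter.finite_biUnion_mem_iff (f := U) (is := X)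
    (s := fun n => ({n} : Set ℕ)) hf).1 (by
      have : (⋃ i ∈ X, ({i} : Set ℕ)) = X := by ext x; simp
      rw [this]; exact hX)
  exact h n hn'

lemma NP.compl_of_finite {U : Ultrafilter ℕ} (h : NP U) {X : Set ℕ} (hX : X.Finite) :
    Xᶜ ∈ U := by
  rw [Ultrafilter.compl_mem_iff_notMem]
  intro h'
  exact h.not_finite h' hX

lemma Selective.qpoint {U : Ultrafilter ℕ} (h : Selective U) : QPoint U := by
  refine ⟨h.1, fun f hf => ?_⟩
  rcases h.2 f with ⟨X, hX, c, hc⟩ | h2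
  · exfalso
    exact NP.not_finite h.1 hX ((hf c).subset fun x hx => hc x hx)
  · exact h2

lemma Selective.ppoint {U : Ultrafilter ℕ} (h : Selective U) : PPoint U := by
  classical
  refine ⟨h.1, fun A hA => ?_⟩
  by_cases hI : (⋂ n, A n) ∈ U
  · refine ⟨_, hI, fun n => ?_⟩
    have : (⋂ n, A n) \ A n = ∅ := by
      rw [Set.sdiff_eq_empty]
      exact Set.iInter_subset A n
    rw [this]; exact Set.finite_empty
  · have hC : (⋂ n, A n)ᶜ ∈ U := Ultrafilter.compl_mem_iff_notMem.2 hI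
    have hex : ∀ x, x ∈ (⋂ n, A n)ᶜ → ∃ n, x ∉ A n := by
      intro x hx
      simpa using hx
    set f : ℕ → ℕ := fun x => if hx : ∃ n, x ∉ A n then Nat.find hx else 0 with hf
    have hfspec : ∀ x, x ∈ (⋂ n, A n)ᶜ → x ∉ A (f x) := by
      intro x hx
      have h1 := hex x hx
      simp only [hf, dif_pos h1]
      exact Nat.find_spec h1
    have hfmin : ∀ x n, x ∉ A n → f x ≤ n := by
      intro x n hx
      have h1 : ∃ n, x ∉ A n := ⟨n, hx⟩
      simp only [hf, dif_pos h1]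
      exact Nat.find_min' h1 hx
    rcases h.2 f with ⟨X, hX, c, hc⟩ | ⟨X, hX, hinj⟩
    · exfalso
      obtain ⟨x, hx⟩ := Ultrafilter.nonempty_of_mem
        (Filter.inter_mem (Filter.inter_mem hX hC) (hA c))
      have := hfspec x hx.1.2
      rw [hc x hx.1.1] at this
      exact this hx.2
    · refine ⟨X ∩ (⋂ n, A n)ᶜ, Filter.inter_mem hX hC, fun n => ?_⟩
      have hsub : MapsTo f ((X ∩ (⋂ n, A n)ᶜ) \ A n) (Set.Iic n) := by
        intro x hx
        exact hfmin x n hx.2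
      exact Set.Finite.of_injOn hsub (hinj.mono fun x hx => hx.1.1) (Set.finite_Iic n)

/-- Splitting: an infinite set has an infinite subset outside a given ultrafilter. -/
lemma split_one (W : Ultrafilter ℕ) {Y : Set ℕ} (hY : Y.Infinite) :
    ∃ Z ⊆ Y, Z.Infinite ∧ Z ∉ W := by
  classical
  -- even and odd numbered elements
  set φ : ℕ → ℕ := Nat.nth (· ∈ Y) with hφ
  have hmono : StrictMono φ := Nat.nth_strictMono hY
  have hmem : ∀ n, φ n ∈ Y := fun n => Nat.nth_mem_of_infinite hY n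
  set Z1 : Set ℕ := range fun n => φ (2 * n) with hZ1
  set Z2 : Set ℕ := range fun n => φ (2 * n + 1) with hZ2
  have h1 : Z1.Infinite := Set.infinite_range_of_injective (by
    intro a b hab
    have := hmono.injective hab
    omega)
  have h2 : Z2.Infinite := Set.infinite_range_of_injective (by
    intro a b hab
    have := hmono.injective hab
    omega)
  have hdis : Disjoint Z1 Z2 := by
    rw [Set.disjoint_left]
    rintro _ ⟨a, rfl⟩ ⟨b, hb⟩
    have := hmono.injective hb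
    omega
  by_cases hW : Z1 ∈ W
  · refine ⟨Z2, ?_, h2, ?_⟩
    · rintro _ ⟨n, rfl⟩; exact hmem _
    · intro hW2
      have := Filter.inter_mem hW hW2
      rw [hdis.inter_eq] at this
      exact Ultrafilter.empty_notMem this
  · refine ⟨Z1, ?_, h1, hW⟩
    rintro _ ⟨n, rfl⟩; exact hmem _

lemma split_fin (s : Finset (Ultrafilter ℕ)) {Y : Set ℕ} (hY : Y.Infinite) :
    ∃ Z ⊆ Y, Z.Infinite ∧ ∀ W ∈ s, Z ∉ W := by
  classical
  induction s using Finset.induction_on with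
  | empty => exact ⟨Y, Subset.rfl, hY, by simp⟩
  | insert a s ha ih =>
    obtain ⟨Z, hZY, hZ, hZs⟩ := ih
    obtain ⟨Z', hZ'Z, hZ', hZ'a⟩ := split_one a hZ
    refine ⟨Z', hZ'Z.trans hZY, hZ', fun W hW => ?_⟩
    rcases Finset.mem_insert.1 hW with rfl | hW
    · exact hZ'a
    · intro h
      exact hZs W hW (Filter.mem_of_superset h hZ'Z)

/-- One task: decide `f` (selectivity) and leave the images under `f` of finitely many
ultrafilters. -/
lemma task (s : Finset (Ultrafilter ℕ)) (f : ℕ → ℕ) {Y : Set ℕ} (hY : Y.Infinite) :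
    ∃ Z ⊆ Y, Z.Infinite ∧ ((∃ c, ∀ x ∈ Z, f x = c) ∨ InjOn f Z) ∧
      ∀ W ∈ s, Z ∉ W.map f := by
  classical
  obtain ⟨Z, hZY, hZ, hZf⟩ : ∃ Z ⊆ Y, Z.Infinite ∧ ((∃ c, ∀ x ∈ Z, f x = c) ∨ InjOn f Z) := by
    by_cases h : ∃ c, (Y ∩ f ⁻¹' {c}).Infinite
    · obtain ⟨c, hc⟩ := h
      exact ⟨_, Set.inter_subset_left, hc, Or.inl ⟨c, fun x hx => hx.2⟩⟩
    · push Not at h
      obtain ⟨Z, hZ, hbij⟩ := Set.exists_subset_bijOn Y f
      refine ⟨Z, hZ, ?_, Or.inr hbij.injOn⟩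
      intro hfin
      have himg : (f '' Y).Finite := by
        rw [← hbij.image_eq]; exact hfin.image f
      apply hY
      have : Y ⊆ ⋃ c ∈ f '' Y, (Y ∩ f ⁻¹' {c}) := by
        intro y hy
        simp only [mem_iUnion]
        exact ⟨f y, mem_image_of_mem f hy, hy, rfl⟩
      refine Set.Finite.subset (himg.biUnion fun c _ => ?_) this
      exact Set.not_infinite.1 (by simpa using h c)
  obtain ⟨Z', hZ'Z, hZ', hs⟩ := split_fin (s.image fun W => W.map f) hZ
  refine ⟨Z', hZ'Z.trans hZY, hZ', ?_, fun W hW => hs _ (Finset.mem_image_of_mem _ hW)⟩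
  rcases hZf with ⟨c, hc⟩ | hinj
  · exact Or.inl ⟨c, fun x hx => hc x (hZ'Z hx)⟩
  · exact Or.inr (hinj.mono hZ'Z)

/-- Countable pseudo-intersection. -/
lemma pseudo {ι : Type} (S : Set ι) (hS : S.Countable) (X : ι → Set ℕ)
    (hfin : ∀ t : Finset ι, (∀ i ∈ t, i ∈ S) → (⋂ i ∈ t, X i).Infinite) :
    ∃ Y : Set ℕ, Y.Infinite ∧ ∀ i ∈ S, (Y \ X i).Finite := by
  classical
  rcases S.eq_empty_or_nonempty with rfl | hne
  · exact ⟨univ, Set.infinite_univ, by simp⟩
  obtain ⟨e, he⟩ := hS.exists_eq_range hne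
  have hfreq : ∀ n : ℕ, ∃ᶠ k in atTop, k ∈ ⋂ i ∈ (Finset.range (n + 1)).image e, X i := by
    intro n
    have hinf : (⋂ i ∈ (Finset.range (n + 1)).image e, X i).Infinite := by
      apply hfin
      intro i hi
      obtain ⟨j, _, rfl⟩ := Finset.mem_image.1 hi
      rw [he]; exact mem_range_self j
    exact Nat.frequently_atTop_iff_infinite.2 hinf
  obtain ⟨φ, hφ, hφX⟩ := extraction_forall_of_frequently hfreq
  refine ⟨range φ, Set.infinite_range_of_injective hφ.injective, fun i hi => ?_⟩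
  rw [he] at hi
  obtain ⟨j, rfl⟩ := hi
  refine ((Set.finite_lt_nat j).image φ).subset ?_
  rintro _ ⟨⟨n, rfl⟩, hn⟩
  refine ⟨n, ?_, rfl⟩
  by_contra hjn
  simp only [Set.mem_ofPred_eq, not_lt] at hjn
  apply hn
  have := hφX n
  simp only [mem_iInter] at this
  exact this (e j) (Finset.mem_image_of_mem _ (Finset.mem_range.2 (by omega)))

end Pool.Agent.Q108.QP
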