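import Mathlib
import Pool.Agent.Q108.QP.Basic

set_option autoImplicit false

namespace Pool.Agent.Q108.QP

open Set Filter

/-- `lim_{n → W} V n`, coded on `ℕ` by the pairing function. -/
noncomputable def lim (W : Ultrafilter ℕ) (V : ℕ → Ultrafilter ℕ) : Ultrafilter ℕ :=
  W.bind (fun n => (V n).map (Nat.pair n))

lemma mem_lim {W : Ultrafilter ℕ} {V : ℕ → Ultrafilter ℕ} {A : Set ℕ} :
    A ∈ lim W V ↔ {n | {j | Nat.pair n j ∈ A} ∈ V n} ∈ W := Iff.rfl

lemma NP.finite_inter {W : Ultrafilter ℕ} (hW : NP W) {A B : Set ℕ} (hA : A ∈ W)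
    (hAB : (A \ B).Finite) : B ∈ W := by
  have := Filter.inter_mem hA (hW.compl_of_finite hAB)
  refine Filter.mem_of_superset this ?_
  intro x hx
  by_contra h
  exact hx.2 ⟨hx.1, h⟩

lemma lim_np {W : Ultrafilter ℕ} {V : ℕ → Ultrafilter ℕ} (hV : ∀ n, NP (V n)) :
    NP (lim W V) := by
  intro x hx
  rw [mem_lim] at hx
  have : {n | {j | Nat.pair n j ∈ ({x} : Set ℕ)} ∈ V n} = ∅ := by
    rw [Set.eq_empty_iff_forall_notMem]
    intro n hn
    refine (hV n).not_finite hn ?_
    refine (Set.finite_singleton (Nat.unpair x).2).subset ?_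
    intro j hj
    have hj' : Nat.pair n j = x := hj
    rw [← hj']; simp
  rw [this] at hx
  exact Ultrafilter.empty_notMem hx

lemma lim_not_ppoint {W : Ultrafilter ℕ} {V : ℕ → Ultrafilter ℕ} (hW : NP W)
    (hV : ∀ n, NP (V n)) : ¬ PPoint (lim W V) := by
  intro h
  have hA : ∀ n, {x : ℕ | n ≤ (Nat.unpair x).1} ∈ lim W V := by
    intro n
    rw [mem_lim]
    have hc : ({k | k < n} : Set ℕ)ᶜ ∈ W := hW.compl_of_finite (Set.finite_lt_nat n)
    refine Filter.mem_of_superset hc ?_
    intro k hk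
    have hk' : n ≤ k := by simpa using hk
    have : {j | Nat.pair k j ∈ {x : ℕ | n ≤ (Nat.unpair x).1}} = univ := by
      ext j; simp [hk']
    show _ ∈ V k
    rw [this]; exact Filter.univ_mem
  obtain ⟨X, hX, hXf⟩ := h.2 _ hA
  rw [mem_lim] at hX
  obtain ⟨k, hk⟩ := Ultrafilter.nonempty_of_mem hX
  refine (hV k).not_finite hk ?_
  have h1 := hXf (k + 1)
  refine Set.Finite.of_injOn (f := Nat.pair k) (t := X \ {x : ℕ | k + 1 ≤ (Nat.unpair x).1})
    ?_ ?_ h1
  · intro j hj
    exact ⟨hj, by simp⟩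
  · intro a _ b _ hab
    have := congrArg (fun x => (Nat.unpair x).2) hab
    simpa using this

lemma lim_not_selective {W : Ultrafilter ℕ} {V : ℕ → Ultrafilter ℕ} (hW : NP W)
    (hV : ∀ n, NP (V n)) : ¬ Selective (lim W V) :=
  fun h => lim_not_ppoint hW hV h.ppoint

/-- The key point: sums of selective ultrafilters, none of which is an image of an earlier one,
are q-points. -/
lemma lim_qpoint (W : Ultrafilter ℕ) {V : ℕ → Ultrafilter ℕ} (hV : ∀ n, Selective (V n))
    (hd : ∀ m n, m < n → ∀ g : ℕ → ℕ, (V m).map g ≠ V n) : QPoint (lim W V) := by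
  classical
  refine ⟨lim_np fun n => (hV n).1, fun f hf => ?_⟩
  set F : ℕ → ℕ → ℕ := fun n j => f (Nat.pair n j) with hF
  have hpinj : ∀ n, Function.Injective (Nat.pair n) := by
    intro n a b hab
    have := congrArg (fun x => (Nat.unpair x).2) hab
    simpa using this
  have hFfin : ∀ n m, {j | F n j = m}.Finite := by
    intro n m
    exact Set.Finite.of_injOn (f := Nat.pair n) (t := {x | f x = m}) (fun j hj => hj)
      ((hpinj n).injOn) (hf m)
  have hS : ∀ n, ∃ S ∈ V n, InjOn (F n) S := fun n => (hV n).qpoint.2 (F n) (hFfin n)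
  choose S hSV hSinj using hS
  -- the images
  have hnp : ∀ n, NP ((V n).map (F n)) := by
    intro n k hk
    exact NP.not_finite (hV n).1 (Ultrafilter.mem_map.1 hk) (hFfin n k)
  have hne' : ∀ m n, m < n → (V m).map (F m) ≠ (V n).map (F n) := by
    intro m n hmn heq
    apply hd m n hmn (Function.invFunOn (F n) (S n) ∘ F m)
    rw [← Ultrafilter.map_map, heq, Ultrafilter.map_map]
    refine Ultrafilter.coe_injective ?_
    have : (Function.invFunOn (F n) (S n) ∘ F n) =ᶠ[(V n : Filter ℕ)] id := by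
      refine Filter.mem_of_superset (hSV n) ?_
      intro j hj
      exact (hSinj n).leftInvOn_invFunOn hj
    rw [Ultrafilter.coe_map, Filter.map_congr this, Filter.map_id]
  have hne : ∀ m n, m ≠ n → (V m).map (F m) ≠ (V n).map (F n) := by
    intro m n hmn
    rcases lt_or_gt_of_ne hmn with h | h
    · exact hne' m n h
    · exact (hne' n m h).symm
  -- separate one from all others
  have hC : ∀ n, ∃ C, C ∈ (V n).map (F n) ∧ ∀ m, m ≠ n → C ∉ (V m).map (F m) := by
    intro n
    have hB : ∀ m, ∃ B, B ∈ (V n).map (F n) ∧ (m ≠ n → B ∉ (V m).map (F m)) := by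
      intro m
      by_cases hmn : m = n
      · exact ⟨univ, Filter.univ_mem, fun h => absurd hmn h⟩
      · have h1 := hne m n hmn
        by_contra hcon
        push Not at hcon
        apply h1
        apply Ultrafilter.eq_of_le
        intro B hB
        exact (hcon B hB).2
    choose B hB1 hB2 using hB
    obtain ⟨X, hX, hXf⟩ := (hV n).ppoint.2 (fun m => F n ⁻¹' (B m))
      (fun m => Ultrafilter.mem_map.1 (hB1 m))
    refine ⟨F n '' X, ?_, fun m hmn hCm => ?_⟩
    · rw [Ultrafilter.mem_map]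
      exact Filter.mem_of_superset hX (Set.subset_preimage_image _ _)
    · apply hB2 m hmn
      refine (hnp m).finite_inter hCm ?_
      refine ((hXf m).image (F n)).subset ?_
      rintro _ ⟨⟨j, hj, rfl⟩, hjB⟩
      exact ⟨j, ⟨hj, hjB⟩, rfl⟩
  choose C hC1 hC2 using hC
  set D : ℕ → Set ℕ := fun n => C n \ ⋃ m ∈ Set.Iio n, C m with hD
  have hDmem : ∀ n, D n ∈ (V n).map (F n) := by
    intro n
    have h1 : (⋃ m ∈ Set.Iio n, C m) ∉ (V n).map (F n) := by
      intro h
      obtain ⟨m, hm, hm'⟩ := (Ultrafilter.finite_biUnion_mem_iff (Set.finite_Iio n)).1 h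
      exact hC2 m n (ne_of_gt hm) hm'
    have h2 := Ultrafilter.compl_mem_iff_notMem.2 h1
    exact Filter.inter_mem (hC1 n) h2
  have hDdis : ∀ m n a, a ∈ D m → a ∈ D n → m = n := by
    intro m n a hm hn
    by_contra hmn
    rcases lt_or_gt_of_ne hmn with h | h
    · exact hn.2 (by
        simp only [mem_iUnion]
        exact ⟨m, h, hm.1⟩)
    · exact hm.2 (by
        simp only [mem_iUnion]
        exact ⟨n, h, hn.1⟩)
  set T : ℕ → Set ℕ := fun n => S n ∩ F n ⁻¹' (D n) with hT
  have hTmem : ∀ n, T n ∈ V n := fun n =>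
    Filter.inter_mem (hSV n) (Ultrafilter.mem_map.1 (hDmem n))
  refine ⟨{x | (Nat.unpair x).2 ∈ T (Nat.unpair x).1}, ?_, ?_⟩
  · rw [mem_lim]
    have : {n | {j | Nat.pair n j ∈ {x | (Nat.unpair x).2 ∈ T (Nat.unpair x).1}} ∈ V n}
        = univ := by
      ext n
      simp only [Set.mem_ofPred_eq, Nat.unpair_pair, mem_univ, iff_true]
      exact hTmem n
    rw [this]
    exact Filter.univ_mem
  · intro x hx y hy hxy
    have hx' : (Nat.unpair x).2 ∈ T (Nat.unpair x).1 := hx
    have hy' : (Nat.unpair y).2 ∈ T (Nat.unpair y).1 := hy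
    have hFx : F (Nat.unpair x).1 (Nat.unpair x).2 = f x := by simp [hF]
    have hFy : F (Nat.unpair y).1 (Nat.unpair y).2 = f y := by simp [hF]
    have h1 : f x ∈ D (Nat.unpair x).1 := by rw [← hFx]; exact hx'.2
    have h2 : f x ∈ D (Nat.unpair y).1 := by rw [hxy, ← hFy]; exact hy'.2
    have h3 := hDdis _ _ _ h1 h2
    have h4 : (Nat.unpair x).2 = (Nat.unpair y).2 := by
      apply hSinj (Nat.unpair y).1
      · rw [← h3]; exact hx'.1
      · exact hy'.1
      · rw [hFy, ← hxy, ← hFx, h3]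
    rw [← Nat.pair_unpair x, ← Nat.pair_unpair y, h3, h4]

end Pool.Agent.Q108.QP
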