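import Mathlib
import Pool.Agent.Q108.QP.Basic

set_option autoImplicit false

namespace Pool.Agent.Q108.QP

open Set Filter Cardinal

section Tower

variable (r : (ℕ → ℕ) → (ℕ → ℕ) → Prop) [IsWellOrder (ℕ → ℕ) r] (s : Finset (Ultrafilter ℕ))

/-- What the set chosen at stage `f` has to satisfy. -/
def Good (f : ℕ → ℕ) (prev : (g : ℕ → ℕ) → r g f → Set ℕ) (Z : Set ℕ) : Prop :=
  Z.Infinite ∧ ((∃ c, ∀ x ∈ Z, f x = c) ∨ InjOn f Z) ∧ (∀ W ∈ s, Z ∉ W.map f) ∧
    ∀ (g : ℕ → ℕ) (h : r g f), (Z \ prev g h).Finite

open Classical in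
/-- The tower. -/
noncomputable def tower : (ℕ → ℕ) → Set ℕ :=
  (IsWellFounded.wf : WellFounded r).fix fun f prev =>
    if h : ∃ Z, Good r s f prev Z then h.choose else univ

lemma tower_eq (f : ℕ → ℕ) (h : ∃ Z, Good r s f (fun g _ => tower r s g) Z) :
    Good r s f (fun g _ => tower r s g) (tower r s f) := by
  classical
  have key : tower r s f =
      (if h : ∃ Z, Good r s f (fun g _ => tower r s g) Z then h.choose else univ) := by
    conv_lhs => unfold tower
    exact WellFounded.fix_eq _ _ _
  have : tower r s f = h.choose := key.trans (dif_pos h)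
  rw [this]
  exact h.choose_spec

lemma tower_good (hc : ∀ f, {g | r g f}.Countable) (f : ℕ → ℕ) :
    Good r s f (fun g _ => tower r s g) (tower r s f) := by
  classical
  induction f using (IsWellFounded.wf : WellFounded r).induction with
  | _ f ih =>
  apply tower_eq
  -- pseudo-intersection of the previous ones
  have hfin : ∀ t : Finset (ℕ → ℕ), (∀ i ∈ t, i ∈ {g | r g f}) →
      (⋂ i ∈ t, tower r s i).Infinite := by
    intro t ht
    rcases t.eq_empty_or_nonempty with rfl | hne
    · simpa using Set.infinite_univ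
    · -- the r-largest element of t
      obtain ⟨m, hm, hmax⟩ : ∃ m ∈ t, ∀ i ∈ t, i = m ∨ r i m := by
        clear ht ih
        induction hne using Finset.Nonempty.cons_induction with
        | singleton a => exact ⟨a, by simp, fun i hi => Or.inl (by simpa using hi)⟩
        | cons a t ha hne ih =>
          obtain ⟨m, hm, hmax⟩ := ih
          rcases trichotomous_of r a m with h | h | h
          · refine ⟨m, Finset.mem_cons_of_mem hm, fun i hi => ?_⟩
            rcases Finset.mem_cons.1 hi with rfl | hi
            · exact Or.inr h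
            · exact hmax i hi
          · refine ⟨m, Finset.mem_cons_of_mem hm, fun i hi => ?_⟩
            rcases Finset.mem_cons.1 hi with rfl | hi
            · exact Or.inl h
            · exact hmax i hi
          · refine ⟨a, Finset.mem_cons_self a t, fun i hi => ?_⟩
            rcases Finset.mem_cons.1 hi with rfl | hi
            · exact Or.inl rfl
            · rcases hmax i hi with rfl | h'
              · exact Or.inr h
              · exact Or.inr (_root_.trans h' h)
      have hgm := ih m (ht m hm)
      have hsub : tower r s m \ (⋂ i ∈ t, tower r s i) ⊆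
          ⋃ i ∈ t, (tower r s m \ tower r s i) := by
        intro x hx
        simp only [Set.mem_sdiff, mem_iInter, not_forall] at hx
        obtain ⟨h1, i, hi, h2⟩ := hx
        simp only [mem_iUnion]
        exact ⟨i, hi, h1, h2⟩
      have hfin' : (tower r s m \ (⋂ i ∈ t, tower r s i)).Finite := by
        refine Set.Finite.subset (Set.Finite.biUnion t.finite_toSet fun i hi => ?_) hsub
        rcases hmax i hi with rfl | h'
        · simp
        · exact hgm.2.2.2 i h'
      intro hI
      apply hgm.1
      refine (hI.union hfin').subset fun x hx => ?_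
      by_cases hxi : x ∈ (⋂ i ∈ t, tower r s i)
      · exact Or.inl hxi
      · exact Or.inr ⟨hx, hxi⟩
  obtain ⟨Y, hY, hYX⟩ := pseudo {g | r g f} (hc f) (tower r s) hfin
  obtain ⟨Z, hZY, hZ, hZf, hZs⟩ := task s f hY
  refine ⟨Z, hZ, hZf, hZs, fun g hg => ?_⟩
  exact (hYX g hg).subset (Set.sdiff_subset_sdiff_left hZY)

lemma exists_selective_aux (hc : ∀ f, {g | r g f}.Countable) :
    ∃ V : Ultrafilter ℕ, Selective V ∧ ∀ W ∈ s, ∀ g : ℕ → ℕ, W.map g ≠ V := by
  classical
  have hG := tower_good r s hc
  set X := tower r s with hX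
  -- the filter
  let F : Filter ℕ :=
    { sets := {A | ∃ f, (X f \ A).Finite}
      univ_sets := ⟨id, by simp⟩
      sets_of_superset := by
        rintro A B ⟨f, hf⟩ hAB
        exact ⟨f, hf.subset (Set.sdiff_subset_sdiff_right hAB)⟩
      inter_sets := by
        rintro A B ⟨f, hf⟩ ⟨g, hg⟩
        rcases trichotomous_of r f g with h | h | h
        · refine ⟨g, ?_⟩
          have h1 := (hG g).2.2.2 f h
          refine ((h1.union hf).union hg).subset ?_
          intro x hx
          by_cases hxf : x ∈ X f
          · by_cases hxA : x ∈ A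
            · exact Or.inr ⟨hx.1, fun hxB => hx.2 ⟨hxA, hxB⟩⟩
            · exact Or.inl (Or.inr ⟨hxf, hxA⟩)
          · exact Or.inl (Or.inl ⟨hx.1, hxf⟩)
        · subst h
          refine ⟨f, (hf.union hg).subset ?_⟩
          intro x hx
          by_cases hxA : x ∈ A
          · exact Or.inr ⟨hx.1, fun hxB => hx.2 ⟨hxA, hxB⟩⟩
          · exact Or.inl ⟨hx.1, hxA⟩
        · refine ⟨f, ?_⟩
          have h1 := (hG f).2.2.2 g h
          refine ((h1.union hf).union hg).subset ?_
          intro x hx
          by_cases hxg : x ∈ X g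
          · by_cases hxB : x ∈ B
            · exact Or.inl (Or.inr ⟨hx.1, fun hxA => hx.2 ⟨hxA, hxB⟩⟩)
            · exact Or.inr ⟨hxg, hxB⟩
          · exact Or.inl (Or.inl ⟨hx.1, hxg⟩) }
  have hF : ∀ A, A ∈ F ↔ ∃ f, (X f \ A).Finite := fun A => Iff.rfl
  have hult : ∀ A : Set ℕ, Aᶜ ∉ F ↔ A ∈ F := by
    intro A
    constructor
    · intro hA
      -- the indicator task
      set f : ℕ → ℕ := fun n => if n ∈ A then 1 else 0 with hf
      rcases (hG f).2.1 with ⟨c, hc'⟩ | hinj
      · by_cases hc1 : c = 1
        · refine (hF _).2 ⟨f, ?_⟩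
          have : X f \ A = ∅ := by
            rw [Set.eq_empty_iff_forall_notMem]
            rintro x ⟨hx, hxA⟩
            have := hc' x hx
            simp [hf, hxA, hc1] at this
          rw [this]; exact Set.finite_empty
        · exfalso
          apply hA
          refine (hF _).2 ⟨f, ?_⟩
          have : X f \ Aᶜ = ∅ := by
            rw [Set.eq_empty_iff_forall_notMem]
            rintro x ⟨hx, hxA⟩
            have h1 := hc' x hx
            have h2 : x ∈ A := by simpa using hxA
            simp [hf, h2] at h1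
            exact hc1 h1.symm
          rw [this]; exact Set.finite_empty
      · exfalso
        apply (hG f).1
        have hmaps : MapsTo f (X f) ({0, 1} : Set ℕ) := by
          intro x _
          by_cases hx : x ∈ A <;> simp [hf, hx]
        exact Set.Finite.of_injOn hmaps hinj (by simp)
    · intro hA hA'
      obtain ⟨f, hf⟩ := (hF _).1 (F.inter_sets hA hA')
      rw [Set.inter_compl_self, Set.sdiff_empty] at hf
      exact (hG f).1 hf
  refine ⟨Ultrafilter.ofComplNotMemIff F hult, ?_, ?_⟩
  · have hmem : ∀ f, X f ∈ Ultrafilter.ofComplNotMemIff F hult := fun f =>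
      (hF _).2 ⟨f, by simp⟩
    refine ⟨?_, fun f => ?_⟩
    · intro n hn
      obtain ⟨f, hf⟩ := (hF _).1 hn
      apply (hG f).1
      refine (hf.union (Set.finite_singleton n)).subset fun x hx => ?_
      by_cases hxn : x = n
      · exact Or.inr hxn
      · exact Or.inl ⟨hx, hxn⟩
    · rcases (hG f).2.1 with ⟨c, hc'⟩ | hinj
      · exact Or.inl ⟨X f, hmem f, c, hc'⟩
      · exact Or.inr ⟨X f, hmem f, hinj⟩
  · intro W hW g hWg
    have h1 : X g ∈ W.map g := by
      rw [hWg]
      exact (hF _).2 ⟨g, by simp⟩
    exact (hG g).2.2.1 W hW h1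

end Tower

/-- Under CH there is, for finitely many given ultrafilters, a selective ultrafilter that is
not an image of one of them. -/
lemma exists_selective (ch : Cardinal.continuum.{0} = Cardinal.aleph 1)
    (s : Finset (Ultrafilter ℕ)) :
    ∃ V : Ultrafilter ℕ, Selective V ∧ ∀ W ∈ s, ∀ g : ℕ → ℕ, W.map g ≠ V := by
  obtain ⟨r, wo, hr⟩ := Cardinal.exists_ord_eq (ℕ → ℕ)
  have := wo
  refine exists_selective_aux r s fun f => ?_
  have h1 : #{g | r g f} < #(ℕ → ℕ) := by
    have := Cardinal.card_typein_lt (r := r) f hr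
    exact this
  have h2 : #(ℕ → ℕ) = Cardinal.aleph 1 := by
    rw [← ch]; simp
  rw [h2] at h1
  rw [← Cardinal.le_aleph0_iff_set_countable]
  have h3 : Cardinal.aleph 1 = Order.succ ℵ₀ := by
    rw [← Cardinal.aleph_zero, Cardinal.succ_aleph]; simp
  rw [h3] at h1
  exact Order.lt_succ_iff.1 h1

/-- Under CH there is a sequence of selective ultrafilters, none of which is an image of an
earlier one. -/
lemma exists_seq (ch : Cardinal.continuum.{0} = Cardinal.aleph 1) :
    ∃ V : ℕ → Ultrafilter ℕ, (∀ n, Selective (V n)) ∧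
      ∀ m n, m < n → ∀ g : ℕ → ℕ, (V m).map g ≠ V n :=
  exists_seq_of_forall_finset_exists Selective (fun W V => ∀ g : ℕ → ℕ, W.map g ≠ V)
    fun s _ => exists_selective ch s

end Pool.Agent.Q108.QP
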